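import Pool.Agent.U571.GF.Main

/-!
# A dense pair of grammatical families of finite grammar forms

Let `F₁` have the productions `S → ab`, `S → ba` and let `F₂` have the production `S → aa`. Both
forms are finite, `𝓛(F₁) ⊊ 𝓛(F₂)`, and the pair `(𝓛(F₁), 𝓛(F₂))` is dense.

Proof.

* If all nonempty words of `L(G)` have length two, then `𝓛(G)` consists of the finite languages of
  words of length two for which there is a letter map into `L(G)`: a derivation in an interpretation
  is mapped letter by letter; conversely every nonterminal is typed by the word (of length at most
  two) which it has to generate, and the start symbol by the whole language.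
* Let `D₁ = L(G₁)`, `D₂ = L(G₂)` with `𝓛(F₁) ⊆ 𝓛(G₁) ⊊ 𝓛(G₂) ⊆ 𝓛(F₂)`: there is a letter map
  `D₁ → D₂`, none `D₂ → D₁`, and there are letters `s, t` with `st, ts ∈ D₁`. For a finite digraph
  `R` take the disjoint union `D₃` of `D₁` and of the product `D₂ × R`. A letter map `D₃ → D₁`
  gives a proper colouring of `R` by the functions from the letters of `D₂` to the letters of `D₁`.
  A letter map `D₂ → D₃` uses at most `|D₂|` arcs of `R`; if these form a bipartite graph, then the
  product part of the image can be mapped to `{s, t}`, and `D₂ → D₁`. Both are impossible if `R`
  has large chromatic number and every set of at most `|D₂|` arcs of `R` is bipartite.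
* Such digraphs `R` are the iterated arc graphs of transitive tournaments: passing to the arc graph
  takes at most a logarithm of the chromatic number, and (for digraphs without directed cycles)
  increases by one the number of arcs which are always bipartite.
-/

set_option autoImplicit false

namespace Pool.Agent.Results.MP_71ec98_lc.DensePairExists

open Pool.Agent.U571.GF

theorem result : F₁.lang.Finite ∧ F₂.lang.Finite ∧ DensePair F₁.family F₂.family := main

end Pool.Agent.Results.MP_71ec98_lc.DensePairExists
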